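import Pool.Agent.NH83.EM.C

/-!
# The size of the measure for degrees up to `c log N` (helper83)
-/

set_option autoImplicit false

namespace Pool.Agent.NH83.EM

open Finset Filter

lemma EB.size {f : ℕ → ℝ} (hf : EB f) {s δ : ℝ} (hs : 0 < s) (hδ : 0 < δ) :
    ∃ c : ℝ, 0 < c ∧ ∃ N1 : ℕ, ∀ N : ℕ, N1 ≤ N → ∀ E : ℕ, (E : ℝ) ≤ c * Real.log N → f E ≤ δ * (N : ℝ) ^ s := by
  obtain ⟨g, hg, h⟩ := hf
  have h1 : Tendsto (fun N : ℕ => (N : ℝ) ^ (s / 2)) atTop atTop :=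
    (tendsto_rpow_atTop (by linarith)).comp tendsto_natCast_atTop_atTop
  obtain ⟨N1, hN1⟩ := eventually_atTop.1 (h1.eventually_ge_atTop (Real.exp g / δ))
  refine ⟨s / (2 * (g + 1)), by positivity, max N1 1, fun N hN E hE => ?_⟩
  have hN' : 1 ≤ N := (le_max_right _ _).trans hN
  have hN0 : (0 : ℝ) < N := by exact_mod_cast hN'
  have hNone : (1 : ℝ) ≤ N := by exact_mod_cast hN'
  have h2 := hN1 N ((le_max_left _ _).trans hN)
  have hlog : 0 ≤ Real.log N := Real.log_nonneg hNone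
  have h3 : g * ((E : ℝ) + 1) ≤ g + s / 2 * Real.log N := by
    have e1 : g * (E : ℝ) ≤ g * (s / (2 * (g + 1)) * Real.log N) := mul_le_mul_of_nonneg_left hE hg
    have e2 : g * (s / (2 * (g + 1)) * Real.log N) ≤ s / 2 * Real.log N := by
      have e3 : g * (s / (2 * (g + 1))) ≤ s / 2 := by
        rw [mul_div_assoc', div_le_iff₀ (by positivity)]
        nlinarith
      calc g * (s / (2 * (g + 1)) * Real.log N) = g * (s / (2 * (g + 1))) * Real.log N := by ring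
        _ ≤ _ := mul_le_mul_of_nonneg_right e3 hlog
    linarith
  have h4 : Real.exp (s / 2 * Real.log N) = (N : ℝ) ^ (s / 2) := by
    rw [Real.rpow_def_of_pos hN0]
    congr 1
    ring
  have h5 : (N : ℝ) ^ s = (N : ℝ) ^ (s / 2) * (N : ℝ) ^ (s / 2) := by
    rw [← Real.rpow_add hN0]
    congr 1
    ring
  calc f E ≤ Real.exp (g * (E + 1)) := h E
    _ ≤ Real.exp (g + s / 2 * Real.log N) := Real.exp_le_exp.2 h3
    _ = Real.exp g * (N : ℝ) ^ (s / 2) := by rw [Real.exp_add, h4]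
    _ ≤ (δ * (N : ℝ) ^ (s / 2)) * (N : ℝ) ^ (s / 2) := by
      refine mul_le_mul_of_nonneg_right ?_ (by positivity)
      rw [div_le_iff₀ hδ] at h2
      linarith
    _ = δ * (N : ℝ) ^ s := by rw [h5, mul_assoc]

lemma Th_sum (E : ℕ) : ∑ i, |Th E i| ≤ ((E : ℝ) + 1) * 40 ^ E := by
  have h1 : ∀ i ∈ (univ : Finset (Fin (E + 1))), |Th E i| ≤ 40 ^ E := by
    intro i _
    rw [Th, abs_pow, abs_neg, abs_of_pos (by positivity)]
    have h2 : 4 * Real.pi ^ 2 ≤ 40 := by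
      have e1 := Real.pi_lt_d2
      have e2 := Real.pi_pos
      nlinarith
    calc (4 * Real.pi ^ 2) ^ (i : ℕ) ≤ 40 ^ (i : ℕ) := pow_le_pow_left₀ (by positivity) h2 _
      _ ≤ 40 ^ E := pow_le_pow_right₀ (by norm_num) (by have := i.2; omega)
  refine (sum_le_sum h1).trans ?_
  rw [sum_const, card_univ, Fintype.card_fin, nsmul_eq_mul]
  push_cast
  exact le_rfl

/-- the conditions of `polyV` for degrees up to `c log N` -/
theorem cond {s t : ℝ} (hs : 0 < s) (ht : 0 < t) : ∃ (κ : ℕ → ℕ) (c0 : ℕ → ℝ), (∀ E, 0 < c0 E) ∧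
    (∀ E : ℕ, ∀ P : Fin (E + 1) → ℤ, P ≠ 0 → ∀ H : ℝ, 1 ≤ H →
      (∀ i, |(P i : ℝ)| ≤ H) → c0 E / H ^ κ E ≤ |∑ i, (P i : ℝ) * Th E i|) ∧
    ∃ c : ℝ, 0 < c ∧ ∃ N1 : ℕ, ∀ N : ℕ, N1 ≤ N → ∀ E : ℕ, (E : ℝ) ≤ c * Real.log N →
      (κ E : ℝ) ≤ (N : ℝ) ^ s ∧ 2 * ((∑ i, |Th E i|) + 1) / c0 E ≤ (2 : ℝ) ^ ((N : ℝ) ^ t) := by
  obtain ⟨κ, c0, hc0, b1, b2, h⟩ := meas_Th
  refine ⟨κ, c0, hc0, h, ?_⟩
  have hl2 : 0 < Real.log 2 := Real.log_pos (by norm_num)
  have b3 : EB fun E => (Real.log 2 + 1) + ((2 * (E : ℝ) + E * Real.log 40) + -Real.log (c0 E)) :=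
    (EB.const _).add ((((EB.const 2).mul EB.id fun E => Nat.cast_nonneg _).add
      (EB.id.mul (EB.const (Real.log 40)) fun E => Real.log_nonneg (by norm_num))).add b2)
  obtain ⟨c1, hc1, N1, h1⟩ := b1.size hs one_pos
  obtain ⟨c2, hc2, N2, h2⟩ := b3.size ht hl2
  refine ⟨min c1 c2, lt_min hc1 hc2, max (max N1 N2) 1, fun N hN E hE => ?_⟩
  have hNone : (1 : ℝ) ≤ N := by
    have : 1 ≤ N := (le_max_right _ _).trans hN
    exact_mod_cast this
  have hlog : 0 ≤ Real.log N := Real.log_nonneg hNone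
  have g1 := h1 N (by omega) E (hE.trans (mul_le_mul_of_nonneg_right (min_le_left _ _) hlog))
  have g2 := h2 N (by omega) E (hE.trans (mul_le_mul_of_nonneg_right (min_le_right _ _) hlog))
  refine ⟨by rwa [one_mul] at g1, ?_⟩
  have hS0 : 0 ≤ ∑ i, |Th E i| := sum_nonneg fun _ _ => abs_nonneg _
  rw [← Real.log_le_log_iff (div_pos (by positivity) (hc0 E)) (by positivity), Real.log_rpow (by norm_num),
    Real.log_div (by positivity) (hc0 E).ne', Real.log_mul (by norm_num) (by positivity)]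
  have h3 : Real.log ((∑ i, |Th E i|) + 1) ≤ 2 * (E : ℝ) + 1 + E * Real.log 40 := by
    have e0 : (0 : ℝ) ≤ E := Nat.cast_nonneg E
    have e1 : (∑ i, |Th E i|) + 1 ≤ Real.exp (2 * E + 1) * 40 ^ E := by
      have e2 := Th_sum E
      have e3 : (1 : ℝ) ≤ 40 ^ E := one_le_pow₀ (by norm_num)
      have e5 : (E : ℝ) + 2 ≤ Real.exp (2 * E + 1) := by
        have e6 := Real.add_one_le_exp (2 * (E : ℝ) + 1)
        linarith
      have e8 := mul_le_mul_of_nonneg_right e5 (show (0 : ℝ) ≤ 40 ^ E by positivity)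
      linarith
    refine (Real.log_le_log (by positivity) e1).trans ?_
    rw [Real.log_mul (by positivity) (by positivity), Real.log_exp, Real.log_pow]
  linarith

end Pool.Agent.NH83.EM
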