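import Mathlib

/-!
# Functions which grow at most exponentially (helper83)
-/

set_option autoImplicit false

namespace Pool.Agent.NH83.EM

/-- `f D ≤ exp (g (D + 1))` for a constant `g` -/
def EB (f : ℕ → ℝ) : Prop := ∃ g : ℝ, 0 ≤ g ∧ ∀ D : ℕ, f D ≤ Real.exp (g * (D + 1))

lemma EB.mono {f h : ℕ → ℝ} (hh : EB h) (hfh : ∀ D, f D ≤ h D) : EB f := by
  obtain ⟨g, hg, h1⟩ := hh
  exact ⟨g, hg, fun D => (hfh D).trans (h1 D)⟩

lemma EB.const (c : ℝ) : EB fun _ => c := by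
  refine ⟨|c|, abs_nonneg _, fun D => ?_⟩
  have h1 : |c| * ((D : ℝ) + 1) ≤ Real.exp (|c| * (D + 1)) := by
    have := Real.add_one_le_exp (|c| * ((D : ℝ) + 1))
    linarith
  have h2 : |c| ≤ |c| * ((D : ℝ) + 1) := le_mul_of_one_le_right (abs_nonneg _) (by
    have : (0 : ℝ) ≤ D := Nat.cast_nonneg D
    linarith)
  exact (le_abs_self c).trans (h2.trans h1)

lemma EB.id : EB fun D => (D : ℝ) := by
  refine ⟨1, zero_le_one, fun D => ?_⟩
  have := Real.add_one_le_exp (1 * ((D : ℝ) + 1))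
  linarith

lemma EB.add {f h : ℕ → ℝ} (hf : EB f) (hh : EB h) : EB fun D => f D + h D := by
  obtain ⟨g, hg, h1⟩ := hf
  obtain ⟨g', hg', h2⟩ := hh
  refine ⟨max g g' + 1, by positivity, fun D => ?_⟩
  have hD : (0 : ℝ) ≤ (D : ℝ) + 1 := by positivity
  have hD1 : (1 : ℝ) ≤ (D : ℝ) + 1 := by
    have : (0 : ℝ) ≤ D := Nat.cast_nonneg D
    linarith
  have e1 : f D ≤ Real.exp (max g g' * (D + 1)) :=
    (h1 D).trans (Real.exp_le_exp.2 (mul_le_mul_of_nonneg_right (le_max_left _ _) hD))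
  have e2 : h D ≤ Real.exp (max g g' * (D + 1)) :=
    (h2 D).trans (Real.exp_le_exp.2 (mul_le_mul_of_nonneg_right (le_max_right _ _) hD))
  have e3 : (2 : ℝ) ≤ Real.exp (D + 1) := by
    have := Real.add_one_le_exp ((D : ℝ) + 1)
    linarith
  have e4 : Real.exp ((max g g' + 1) * (D + 1)) = Real.exp (D + 1) * Real.exp (max g g' * (D + 1)) := by
    rw [← Real.exp_add]
    congr 1
    ring
  rw [e4]
  have e5 := Real.exp_pos (max g g' * ((D : ℝ) + 1))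
  nlinarith

lemma EB.mul {f h : ℕ → ℝ} (hf : EB f) (hh : EB h) (hh0 : ∀ D, 0 ≤ h D) : EB fun D => f D * h D := by
  obtain ⟨g, hg, h1⟩ := hf
  obtain ⟨g', hg', h2⟩ := hh
  refine ⟨g + g', by positivity, fun D => ?_⟩
  rw [add_mul, Real.exp_add]
  exact mul_le_mul (h1 D) (h2 D) (hh0 D) (Real.exp_pos _).le

lemma EB.pow {f : ℕ → ℝ} (hf : EB f) (hf0 : ∀ D, 0 ≤ f D) (k : ℕ) : EB fun D => f D ^ k := by
  obtain ⟨g, hg, h1⟩ := hf
  refine ⟨k * g, by positivity, fun D => ?_⟩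
  rw [mul_assoc, Real.exp_nat_mul]
  exact pow_le_pow_left₀ (hf0 D) (h1 D) k

lemma EB.powD (c : ℝ) (hc : 0 ≤ c) : EB fun D => c ^ (D + 1) := by
  refine ⟨c, hc, fun D => ?_⟩
  have h1 : c ≤ Real.exp c := by
    have := Real.add_one_le_exp c
    linarith
  calc c ^ (D + 1) ≤ Real.exp c ^ (D + 1) := pow_le_pow_left₀ hc h1 _
    _ = Real.exp (c * (D + 1)) := by
      rw [← Real.exp_nat_mul]
      congr 1
      push_cast
      ring

end Pool.Agent.NH83.EM
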