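import Pool.Agent.NH83.EM.A
import Pool.Agent.TH456.TM.Inst

/-!
# Transcendence measures with explicit dependence on the degree: the bounds (helper83)
-/

set_option autoImplicit false

namespace Pool.Agent.NH83.EM

open Polynomial Finset
open Pool.Agent.TH456.TM

lemma log_succ_le (x : ℕ) : Real.log ((x : ℝ) + 1) ≤ x := by
  have := Real.log_le_sub_one_of_pos (show (0 : ℝ) < (x : ℝ) + 1 by positivity)
  linarith

lemma log_nat_le (x : ℕ) : Real.log (x : ℝ) ≤ x := by
  rcases Nat.eq_zero_or_pos x with h | h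
  · subst h
    simp
  · have := Real.log_le_sub_one_of_pos (show (0 : ℝ) < (x : ℝ) by exact_mod_cast h)
    linarith

lemma log_fact_le (x : ℕ) : Real.log (x.factorial : ℝ) ≤ x * x := by
  rcases Nat.eq_zero_or_pos x with h | h
  · subst h
    simp
  · have h0 : (0 : ℝ) < x := by exact_mod_cast h
    have h1 : (x.factorial : ℝ) ≤ (x : ℝ) ^ x := by exact_mod_cast Nat.factorial_le_pow x
    calc Real.log (x.factorial : ℝ) ≤ Real.log ((x : ℝ) ^ x) :=
          Real.log_le_log (by exact_mod_cast Nat.factorial_pos x) h1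
      _ = x * Real.log x := Real.log_pow _ _
      _ ≤ x * x := mul_le_mul_of_nonneg_left (log_nat_le x) h0.le

variable {O : Type} [CommRing O] [IsDomain O]

/-- **Transcendence measure** of `θ ≠ 0` with `e^θ` in the fraction field of `O`; the exponents grow at most exponentially
with the degree -/
theorem measureE (ι : O →+* ℂ) (hι : ∀ z, z ≠ 0 → 1 ≤ ‖ι z‖) (θ : ℂ) (hθ : θ ≠ 0) (a b : O)
    (hb : b ≠ 0) (hab : ι b * Complex.exp θ = ι a) :
    ∃ κ c : ℕ → ℝ, (∀ D, 0 ≤ κ D) ∧ (∀ D, 0 < c D) ∧ EB κ ∧ EB (fun D => -Real.log (c D)) ∧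
      ∀ D : ℕ, ∀ P : O[X], P ≠ 0 → P.natDegree ≤ D →
      ∀ H : ℝ, 1 ≤ H → (∀ j, ‖ι (P.coeff j)‖ ≤ H) → c D ≤ H ^ κ D * ‖(P.map ι).eval θ‖ := by
  obtain ⟨L, hL⟩ : ∃ L, L = Real.exp (Real.log 4 + 4) := ⟨_, rfl⟩
  obtain ⟨W, hW⟩ : ∃ W, W = max 1 (max ‖ι a‖ ‖ι b‖) := ⟨_, rfl⟩
  obtain ⟨T, hT⟩ : ∃ T, T = ‖θ‖ := ⟨_, rfl⟩
  have hW1 : 1 ≤ W := by rw [hW]; exact le_max_left _ _
  have hT0 : 0 ≤ T := by rw [hT]; positivity
  have hL0 : 0 < L := by rw [hL]; exact Real.exp_pos _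
  obtain ⟨Z, hZ⟩ : ∃ Z : ℕ → ℝ, Z = fun D => (4 * L) ^ (D + 1) * (2 * Real.exp 1 * T) *
    ((4 * W * L) ^ (D + 1) * Real.exp (2 * T + 1)) := ⟨_, rfl⟩
  have hZ0 : ∀ D, 0 ≤ Z D := by
    intro D
    rw [hZ]
    positivity
  obtain ⟨n, hn⟩ : ∃ n : ℕ → ℕ, n = fun D => ⌈max 1 (Z D)⌉₊ := ⟨_, rfl⟩
  obtain ⟨K, hK⟩ : ∃ K : ℕ → ℝ, K = fun D => 4 * W * (4 ^ n D * L ^ (n D + 1)) := ⟨_, rfl⟩
  obtain ⟨C, hC⟩ : ∃ C : ℕ → ℝ, C = fun D : ℕ => (D : ℝ) ^ 2 * ((n D).factorial * ((n D : ℝ) + 1) ^ (n D + 1)) + 1 :=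
    ⟨_, rfl⟩
  have happ := fun D => approx_at ι hι θ a b hb hab D L W T _ hL hW hT rfl (n D)
    (by rw [hn, hZ]; exact Nat.le_ceil _) (K D) (by rw [hK]) (C D) (by rw [hC])
  obtain ⟨T1, hT1⟩ : ∃ T1, T1 = max 1 ‖θ‖ := ⟨_, rfl⟩
  have hT11 : 1 ≤ T1 := by rw [hT1]; exact le_max_left _ _
  obtain ⟨C₃, hC₃⟩ : ∃ C₃ : ℕ → ℝ, C₃ = fun D : ℕ => ((D + n D : ℕ) : ℝ) * T1 ^ (D + n D) * (D + n D).factorial := ⟨_, rfl⟩
  obtain ⟨A, hA⟩ : ∃ A : ℕ → ℝ, A = fun D => C₃ D * C D ^ (D + 1) := ⟨_, rfl⟩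
  obtain ⟨c, hc⟩ : ∃ c : ℕ → ℝ, c = fun D => 1 / (C₃ D * C D ^ D * Real.exp ((Real.log (A D) + 2) * D *
    Real.log (K D))) := ⟨_, rfl⟩
  have hms := fun D => measure_at ι hι θ D (n D) (C D) (K D) (happ D).1 (happ D).2.1 (happ D).2.2.1 (happ D).2.2.2
    T1 hT1 (C₃ D) (by rw [hC₃]) (A D) (by rw [hA]) (c D) (by rw [hc])
  -- the bounds
  have bn : EB fun D => (n D : ℝ) := by
    have h1 : EB Z := by
      rw [hZ]
      exact (((EB.powD _ (by positivity)).mul (EB.const _) fun D => by positivity).mul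
        ((EB.powD _ (by positivity)).mul (EB.const _) fun D => by positivity) fun D => by positivity)
    refine (h1.add (EB.const 2)).mono fun D => ?_
    have h2 := Nat.ceil_lt_add_one (show 0 ≤ max 1 (Z D) by positivity)
    have h3 : max 1 (Z D) ≤ Z D + 1 := max_le (by linarith [hZ0 D]) (by linarith)
    rw [hn]
    simp only
    linarith
  have bn0 : ∀ D, (0 : ℝ) ≤ n D := fun D => Nat.cast_nonneg _
  have bD0 : ∀ D : ℕ, (0 : ℝ) ≤ D := fun D => Nat.cast_nonneg _
  have bK : EB fun D => Real.log (K D) := by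
    refine ((EB.const (Real.log (4 * W))).add ((bn.mul (EB.const (Real.log 4)) fun D =>
      Real.log_nonneg (by norm_num)).add ((bn.add (EB.const 1)).mul (EB.const (|Real.log L|)) fun D =>
      abs_nonneg _))).mono fun D => ?_
    rw [hK]
    simp only
    rw [Real.log_mul (show 4 * W ≠ 0 by positivity) (by positivity),
      Real.log_mul (show (4 : ℝ) ^ n D ≠ 0 by positivity) (by positivity), Real.log_pow, Real.log_pow]
    push_cast
    have h1 : ((n D : ℝ) + 1) * Real.log L ≤ ((n D : ℝ) + 1) * |Real.log L| :=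
      mul_le_mul_of_nonneg_left (le_abs_self _) (by positivity)
    linarith
  have bK0 : ∀ D, 0 ≤ Real.log (K D) := fun D => Real.log_nonneg (happ D).2.2.1
  have bC : EB fun D => Real.log (C D) := by
    refine (((EB.const 2).mul EB.id bD0).add ((((bn.mul bn bn0)).add ((bn.add (EB.const 1)).mul bn bn0)))).mono
      fun D => ?_
    have h1 : (1 : ℝ) ≤ (n D).factorial * ((n D : ℝ) + 1) ^ (n D + 1) := by
      have e1 : (1 : ℝ) ≤ (n D).factorial := by exact_mod_cast Nat.factorial_pos _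
      have e2 : (1 : ℝ) ≤ ((n D : ℝ) + 1) ^ (n D + 1) := one_le_pow₀ (by linarith [bn0 D])
      exact one_le_mul_of_one_le_of_one_le e1 e2
    have h2 : C D ≤ ((D : ℝ) + 1) ^ 2 * ((n D).factorial * ((n D : ℝ) + 1) ^ (n D + 1)) := by
      rw [hC]
      simp only
      have := bD0 D
      nlinarith
    have h3 := (happ D).2.1
    refine (Real.log_le_log (by linarith) h2).trans ?_
    rw [Real.log_mul (by positivity) (by positivity), Real.log_mul (by positivity) (by positivity), Real.log_pow,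
      Real.log_pow]
    have h4 := log_succ_le D
    have h5 := log_succ_le (n D)
    have h6 := log_fact_le (n D)
    have h7 : ((n D + 1 : ℕ) : ℝ) * Real.log ((n D : ℝ) + 1) ≤ ((n D : ℝ) + 1) * n D := by
      push_cast
      exact mul_le_mul_of_nonneg_left h5 (by positivity)
    push_cast at h7 ⊢
    linarith
  have bC0 : ∀ D, 0 ≤ Real.log (C D) := fun D => Real.log_nonneg (happ D).2.1
  have bC3 : EB fun D => Real.log (C₃ D) := by
    have bs : EB fun D => (D : ℝ) + n D := EB.id.add bn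
    have bs0 : ∀ D : ℕ, (0 : ℝ) ≤ (D : ℝ) + n D := fun D => add_nonneg (bD0 D) (bn0 D)
    refine (bs.add ((bs.mul (EB.const (Real.log T1)) fun D => Real.log_nonneg hT11).add (bs.mul bs bs0))).mono
      fun D => ?_
    have h0 : 1 ≤ n D := (happ D).1
    have h1 : ((D + n D : ℕ) : ℝ) ≠ 0 := by
      have : D + n D ≠ 0 := by omega
      exact_mod_cast this
    rw [hC₃]
    simp only
    rw [Real.log_mul (mul_ne_zero h1 (by positivity)) (by positivity), Real.log_mul h1 (by positivity), Real.log_pow]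
    have h2 := log_nat_le (D + n D)
    have h3 := log_fact_le (D + n D)
    push_cast at h2 h3 ⊢
    linarith
  have bC30 : ∀ D, 0 ≤ Real.log (C₃ D) := fun D => Real.log_nonneg (hms D).1
  have bA : EB fun D => Real.log (A D) + 2 := by
    refine ((bC3.add ((EB.id.add (EB.const 1)).mul bC bC0)).add (EB.const 2)).mono fun D => ?_
    have h1 := (hms D).1
    have h2 := (happ D).2.1
    rw [hA]
    simp only
    rw [Real.log_mul (by linarith) (by positivity), Real.log_pow]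
    push_cast
    exact le_rfl
  have bA0 : ∀ D, 0 ≤ Real.log (A D) + 2 := by
    intro D
    have h1 := (hms D).1
    have h2 := (happ D).2.1
    have h3 : 1 ≤ A D := by
      rw [hA]
      exact one_le_mul_of_one_le_of_one_le h1 (one_le_pow₀ h2)
    linarith [Real.log_nonneg h3]
  have bc : EB fun D => -Real.log (c D) := by
    refine ((bC3.add (EB.id.mul bC bC0)).add ((bA.mul EB.id bD0).mul bK bK0)).mono fun D => ?_
    have h1 := (hms D).1
    have h2 := (happ D).2.1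
    rw [hc]
    simp only
    rw [one_div, Real.log_inv, neg_neg, Real.log_mul (by positivity) (by positivity),
      Real.log_mul (by linarith) (by positivity), Real.log_pow, Real.log_exp]
  obtain ⟨μ, hμ⟩ : ∃ μ, μ = min 1 ‖θ‖ := ⟨_, rfl⟩
  have hμ0 : 0 < μ := by rw [hμ]; exact lt_min one_pos (norm_pos_iff.2 hθ)
  refine ⟨fun D => (n D : ℝ) + n D * D * Real.log (K D), fun D => c D * μ ^ D, fun D => (hms D).2.1, fun D => ?_,
    bn.add ((bn.mul EB.id bD0).mul bK bK0), ?_, fun D P hP hPD H hH hPH => ?_⟩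
  · have := (hms D).2.2.1
    positivity
  · refine (bc.add (EB.id.mul (EB.const |Real.log μ|) fun D => abs_nonneg _)).mono fun D => ?_
    have h1 := (hms D).2.2.1
    rw [Real.log_mul h1.ne' (by positivity), Real.log_pow]
    have h2 : (D : ℝ) * -Real.log μ ≤ D * |Real.log μ| := mul_le_mul_of_nonneg_left (neg_le_abs _) (bD0 D)
    linarith
  · simp only
    rw [hμ]
    exact measure_fin ι hι θ hθ D _ (c D) (hms D).2.1 (hms D).2.2.1 (hms D).2.2.2.1 (hms D).2.2.2.2 P hP hPD H hH hPH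

/-- the number `π`, every degree -/
theorem measE_pi : ∃ κ c : ℕ → ℝ, (∀ D, 0 ≤ κ D) ∧ (∀ D, 0 < c D) ∧ EB κ ∧ EB (fun D => -Real.log (c D)) ∧
    ∀ D : ℕ, ∀ P : ℤ[X], P ≠ 0 → P.natDegree ≤ D →
      ∀ H : ℝ, 1 ≤ H → (∀ j, |(P.coeff j : ℝ)| ≤ H) → c D ≤ H ^ κ D * ‖aeval (Real.pi : ℂ) P‖ := by
  obtain ⟨κ, c, hκ, hc, h1, h2, h⟩ := measureE GaussianInt.toComplex gauss_norm (Real.pi * Complex.I)
    (mul_ne_zero (by exact_mod_cast Real.pi_ne_zero) Complex.I_ne_zero) (-1) 1 one_ne_zero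
    (by rw [map_one, one_mul, map_neg, map_one, Complex.exp_pi_mul_I])
  refine ⟨κ, c, hκ, hc, h1, h2, fun D P hP hPD H hH hPH => ?_⟩
  obtain ⟨u, hu⟩ : ∃ u : GaussianInt, u = ⟨0, -1⟩ := ⟨_, rfl⟩
  have hun : ‖GaussianInt.toComplex u‖ = 1 := by
    rw [hu, GaussianInt.toComplex_def']
    simp
  have hu0 : u ≠ 0 := by
    rintro rfl
    simp at hun
  have hupi : GaussianInt.toComplex u * (Real.pi * Complex.I) = (Real.pi : ℂ) := by
    rw [hu, GaussianInt.toComplex_def']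
    push_cast
    have := Complex.I_mul_I
    linear_combination (-(Real.pi : ℂ)) * this
  obtain ⟨Q, hQ⟩ : ∃ Q : GaussianInt[X], Q = (P.map (Int.castRingHom GaussianInt)).comp (C u * X) :=
    ⟨_, rfl⟩
  have hcoef : ∀ j, Q.coeff j = (P.coeff j : GaussianInt) * u ^ j := by
    intro j
    rw [hQ, comp_C_mul_X_coeff, coeff_map, eq_intCast]
  have hQ0 : Q ≠ 0 := by
    intro h0
    apply hP
    ext j
    have h1 := hcoef j
    rw [h0, coeff_zero] at h1
    have h2 : (P.coeff j : GaussianInt) = 0 := by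
      rcases mul_eq_zero.1 h1.symm with h3 | h3
      · exact h3
      · exact absurd h3 (pow_ne_zero _ hu0)
    rw [coeff_zero]
    exact_mod_cast h2
  have h1 := h D Q hQ0 (by
    rw [hQ]
    refine natDegree_comp_le.trans ?_
    have h2 : (C u * X : GaussianInt[X]).natDegree ≤ 1 :=
      natDegree_C_mul_le _ _ |>.trans natDegree_X_le
    calc (P.map (Int.castRingHom GaussianInt)).natDegree * (C u * X : GaussianInt[X]).natDegree
        ≤ D * 1 := Nat.mul_le_mul (natDegree_map_le.trans hPD) h2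
      _ = D := mul_one D) H hH (fun j => by
    rw [hcoef, map_mul, map_pow, norm_mul, norm_pow, hun, one_pow, mul_one, map_intCast,
      Complex.norm_intCast]
    exact hPH j)
  have h2 : (Q.map GaussianInt.toComplex).eval (Real.pi * Complex.I) = aeval (Real.pi : ℂ) P := by
    rw [hQ, Polynomial.map_comp, eval_comp, Polynomial.map_mul, map_C, map_X, eval_mul, eval_C, eval_X,
      Polynomial.map_map, eval_map, aeval_def, hupi]
    congr 1
    exact RingHom.ext_int _ _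
  rwa [h2] at h1

end Pool.Agent.NH83.EM
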