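import Pool.Agent.NH83.EM.B

/-!
# A measure of linear independence of the powers of `-4π²` (helper83)
-/

set_option autoImplicit false

namespace Pool.Agent.NH83.EM

open Polynomial Finset

lemma EB.two {f : ℕ → ℝ} (hf : EB f) : EB fun E => f (2 * E) := by
  obtain ⟨g, hg, h⟩ := hf
  refine ⟨2 * g, by positivity, fun E => (h (2 * E)).trans (Real.exp_le_exp.2 ?_)⟩
  push_cast
  have : (0 : ℝ) ≤ E := Nat.cast_nonneg E
  nlinarith

/-- the powers of `-4π²` -/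
noncomputable def Th (E : ℕ) (i : Fin (E + 1)) : ℝ := (-(4 * Real.pi ^ 2)) ^ (i : ℕ)

/-- the polynomial `∑ q_i (-4)^i X^(2 i)` -/
noncomputable def QP (E : ℕ) (q : Fin (E + 1) → ℤ) : ℤ[X] := ∑ i : Fin (E + 1), C (q i * (-4) ^ (i : ℕ)) * X ^ (2 * (i : ℕ))

lemma QP_coeff (E : ℕ) (q : Fin (E + 1) → ℤ) (k : ℕ) : (QP E q).coeff k =
    ∑ i : Fin (E + 1), if k = 2 * (i : ℕ) then q i * (-4) ^ (i : ℕ) else 0 := by
  rw [QP, finsetSum_coeff]
  refine sum_congr rfl fun i _ => ?_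
  rw [coeff_C_mul, coeff_X_pow]
  split_ifs <;> simp

lemma QP_coeff_two (E : ℕ) (q : Fin (E + 1) → ℤ) (i : Fin (E + 1)) :
    (QP E q).coeff (2 * (i : ℕ)) = q i * (-4) ^ (i : ℕ) := by
  rw [QP_coeff, sum_eq_single i]
  · rw [if_pos rfl]
  · intro j _ hj
    rw [if_neg]
    intro h
    exact hj (Fin.ext (by omega))
  · intro h
    exact absurd (mem_univ _) h

lemma QP_bound (E : ℕ) (q : Fin (E + 1) → ℤ) {H : ℝ} (hH : 0 ≤ H) (hq : ∀ i, |(q i : ℝ)| ≤ H) (k : ℕ) :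
    |((QP E q).coeff k : ℝ)| ≤ 4 ^ E * H := by
  by_cases hk : ∃ i : Fin (E + 1), k = 2 * (i : ℕ)
  · obtain ⟨i, rfl⟩ := hk
    rw [QP_coeff_two]
    push_cast
    rw [abs_mul, abs_pow, abs_neg, abs_of_pos (show (0 : ℝ) < 4 by norm_num), mul_comm]
    have h1 : (4 : ℝ) ^ (i : ℕ) ≤ 4 ^ E := pow_le_pow_right₀ (by norm_num) (by have := i.2; omega)
    exact mul_le_mul h1 (hq i) (abs_nonneg _) (by positivity)
  · push Not at hk
    rw [QP_coeff, sum_eq_zero fun i _ => if_neg (hk i), Int.cast_zero, abs_zero]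
    positivity

lemma QP_aeval (E : ℕ) (q : Fin (E + 1) → ℤ) :
    aeval (Real.pi : ℂ) (QP E q) = ((∑ i, (q i : ℝ) * Th E i : ℝ) : ℂ) := by
  rw [QP, map_sum]
  push_cast
  refine sum_congr rfl fun i _ => ?_
  rw [map_mul, map_pow, aeval_X, aeval_C, Th]
  simp only [algebraMap_int_eq, eq_intCast]
  push_cast
  rw [neg_pow, neg_pow (4 * (Real.pi : ℂ) ^ 2), mul_pow, pow_mul]
  ring

/-- **a measure of linear independence** of `1, -4π², ..., (-4π²)^E`, whose exponents grow at most exponentially with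
`E` -/
theorem meas_Th : ∃ (κ : ℕ → ℕ) (c0 : ℕ → ℝ), (∀ E, 0 < c0 E) ∧ EB (fun E => (κ E : ℝ)) ∧
    EB (fun E => -Real.log (c0 E)) ∧ ∀ E : ℕ, ∀ P : Fin (E + 1) → ℤ, P ≠ 0 → ∀ H : ℝ, 1 ≤ H →
      (∀ i, |(P i : ℝ)| ≤ H) → c0 E / H ^ κ E ≤ |∑ i, (P i : ℝ) * Th E i| := by
  obtain ⟨κ, c, hκ, hc, b1, b2, h⟩ := measE_pi
  have hk0 : ∀ E : ℕ, (0 : ℝ) ≤ (⌈κ (2 * E)⌉₊ : ℝ) := fun E => Nat.cast_nonneg _
  have b3 : EB fun E => ((⌈κ (2 * E)⌉₊ : ℕ) : ℝ) :=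
    (b1.two.add (EB.const 1)).mono fun E => (Nat.ceil_lt_add_one (hκ _)).le
  refine ⟨fun E => ⌈κ (2 * E)⌉₊, fun E => c (2 * E) / (4 ^ E) ^ ⌈κ (2 * E)⌉₊, fun E => ?_, b3, ?_,
    fun E P hP H hH hPH => ?_⟩
  · have := hc (2 * E)
    positivity
  · refine (b2.two.add ((b3.mul EB.id fun E => Nat.cast_nonneg _).mul (EB.const (Real.log 4)) fun E =>
      Real.log_nonneg (by norm_num))).mono fun E => ?_
    rw [Real.log_div (hc (2 * E)).ne' (by positivity), Real.log_pow, Real.log_pow]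
    linarith
  · have hH0 : (0 : ℝ) < H := by linarith
    have h41 : (1 : ℝ) ≤ 4 ^ E := one_le_pow₀ (by norm_num)
    have hne : QP E P ≠ 0 := by
      intro h0
      apply hP
      funext i
      have h1 := QP_coeff_two E P i
      rw [h0, coeff_zero] at h1
      rcases mul_eq_zero.1 h1.symm with h2 | h2
      · exact h2
      · exact absurd h2 (pow_ne_zero _ (by norm_num))
    have hdeg : (QP E P).natDegree ≤ 2 * E := by
      rw [natDegree_le_iff_coeff_eq_zero]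
      intro k hk
      rw [QP_coeff]
      refine sum_eq_zero fun i _ => if_neg ?_
      have := i.2
      omega
    have h1 := h (2 * E) (QP E P) hne hdeg (4 ^ E * H) (one_le_mul_of_one_le_of_one_le h41 hH)
      (QP_bound E P hH0.le hPH)
    rw [QP_aeval, Complex.norm_real, Real.norm_eq_abs] at h1
    have h2 : ((4 : ℝ) ^ E * H) ^ κ (2 * E) ≤ ((4 : ℝ) ^ E * H) ^ ⌈κ (2 * E)⌉₊ := by
      rw [← Real.rpow_natCast ((4 : ℝ) ^ E * H)]
      exact Real.rpow_le_rpow_of_exponent_le (one_le_mul_of_one_le_of_one_le h41 hH) (Nat.le_ceil _)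
    have h3 : c (2 * E) ≤ (4 ^ E * H) ^ ⌈κ (2 * E)⌉₊ * |∑ i, (P i : ℝ) * Th E i| :=
      h1.trans (mul_le_mul_of_nonneg_right h2 (abs_nonneg _))
    rw [div_div, div_le_iff₀ (by positivity), ← mul_pow, mul_comm (|∑ i, (P i : ℝ) * Th E i|)]
    exact h3

end Pool.Agent.NH83.EM
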