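import Pool.Agent.NH24.GU.E

/-!
# Parameters for growing degree, varying measures (helper83, after `Pool.Agent.NH24.GU.grow`)
-/

set_option autoImplicit false

namespace Pool.Agent.NH83.EM

open Finset Filter
open Pool.Agent.NH24.GU (ev_pi pi_le)

/-- **parameters** -/
theorem growV {a γ ε : ℝ} (ha : 0 ≤ a) (hγ0 : 0 < γ) (hγ1 : γ < 1) (hε : 0 < ε) :
    ∃ c : ℝ, 0 < c ∧ c ≤ 1 ∧ ∃ k0 : ℕ, ∀ k : ℕ, k0 ≤ k → ∀ (A : ℝ) (κ : ℕ), 1 ≤ A → A ≤ (2 : ℝ) ^ ((k : ℝ) ^ γ) →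
      (κ : ℝ) ≤ (k : ℝ) ^ ((1 - γ) / 4) → ∀ D R K C : ℕ,
      (D : ℝ) * Real.log (Real.log k) ≤ c * Real.log k → (R : ℝ) ≤ (Real.log k) ^ a →
      (k : ℝ) / Real.log k ≤ K → C ≤ 2 * k → C - K ≤ R →
      ∃ W L Z X : ℕ, D * (C - K) ≤ W ∧ W < Nat.primeCounting L ∧ L ≤ Z ∧
        Nat.primeCounting L + D * (W + 1) ≤ Nat.primeCounting Z ∧ 1 ≤ X ∧ Z ^ (D - 1) * L ≤ X ∧
        (∀ x : ℕ, 1 ≤ x → x ≤ X →
          A * (2 ^ D * (2 : ℝ) ^ ((k : ℝ) ^ γ) * (x : ℝ) ^ (C - K)) ^ (κ + 1) ≤ 2 ^ (K / x)) ∧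
        A * (2 ^ D * (2 : ℝ) ^ ((k : ℝ) ^ γ) * (X : ℝ) ^ (C - K)) ^ (κ + 1) * (X : ℝ) ^ C <
          (k : ℝ) ^ (ε * k) := by
  have hl2 : 0 < Real.log 2 := Real.log_pos (by norm_num)
  have hl21 : Real.log 2 < 1 := by
    have := Real.log_two_lt_d9
    linarith
  obtain ⟨η, hη⟩ : ∃ η, η = min (ε / 4) ((1 - γ) / 2) := ⟨_, rfl⟩
  have hη0 : 0 < η := by
    rw [hη]
    apply lt_min <;> linarith
  have hη1 : η ≤ ε / 4 := by rw [hη]; exact min_le_left _ _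
  have hη2 : η ≤ (1 - γ) / 2 := by rw [hη]; exact min_le_right _ _
  obtain ⟨b, hb⟩ : ∃ b, b = 4 * a + 13 := ⟨_, rfl⟩
  have hb0 : 0 < b := by rw [hb]; linarith
  -- limits
  have hk : Tendsto (fun k : ℕ => (k : ℝ)) atTop atTop := tendsto_natCast_atTop_atTop
  have hl : Tendsto (fun k : ℕ => Real.log k) atTop atTop := Real.tendsto_log_atTop.comp hk
  have hll : Tendsto (fun k : ℕ => Real.log (Real.log k)) atTop atTop := Real.tendsto_log_atTop.comp hl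
  have f1 := hl.eventually_ge_atTop 4
  have f1' := hll.eventually_ge_atTop 1
  have logpow : ∀ r s δ : ℝ, 0 < s → 0 < δ → ∀ᶠ k : ℕ in atTop, Real.log k ^ r ≤ δ * (k : ℝ) ^ s := by
    intro r s δ hs hδ
    have h1 := (isLittleO_log_rpow_rpow_atTop r hs).bound hδ
    filter_upwards [hk.eventually h1, f1, eventually_ge_atTop 1] with k h2 h3 h4
    have hk0 : (0 : ℝ) < k := by exact_mod_cast h4
    rw [Real.norm_of_nonneg (Real.rpow_nonneg (by linarith) _), Real.norm_of_nonneg (by positivity)] at h2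
    exact h2
  have f2 := logpow 1 γ 1 hγ0 one_pos
  have f3 := logpow (a + 1) γ (Real.log 2 / (η + 1)) hγ0 (by positivity)
  have f4 := logpow 1 ((1 - γ) / 4) (1 / 9) (by linarith) (by positivity)
  have f5 := hl.eventually_gt_atTop (2 / ε)
  have f6 : ∀ᶠ k : ℕ in atTop, b * Real.log (Real.log k) ≤ η / 2 * Real.log k := by
    have h1 := (isLittleO_log_rpow_atTop (r := 1) one_pos).bound (show (0 : ℝ) < η / 2 / b by positivity)
    filter_upwards [hl.eventually h1, f1, f1'] with k h2 h3 h4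
    rw [Real.rpow_one, Real.norm_of_nonneg (by linarith), Real.norm_of_nonneg (by linarith)] at h2
    calc b * Real.log (Real.log k) ≤ b * (η / 2 / b * Real.log k) := mul_le_mul_of_nonneg_left h2 hb0.le
      _ = η / 2 * Real.log k := by field_simp
  have hL : Tendsto (fun k : ℕ => ⌈Real.log k ^ (2 * a + 4)⌉₊) atTop atTop :=
    tendsto_nat_ceil_atTop.comp ((tendsto_rpow_atTop (by linarith)).comp hl)
  have hZ : Tendsto (fun k : ℕ => ⌈Real.log k ^ (4 * a + 12)⌉₊) atTop atTop :=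
    tendsto_nat_ceil_atTop.comp ((tendsto_rpow_atTop (by linarith)).comp hl)
  have f8 := hL.eventually ev_pi
  have f9 := hZ.eventually ev_pi
  refine ⟨min 1 (η / (2 * b)), by positivity, min_le_left _ _, ?_⟩
  obtain ⟨k0, h0⟩ := eventually_atTop.1 (f1.and (f1'.and (f2.and (f3.and (f4.and (f5.and (f6.and
    (f8.and f9))))))))
  refine ⟨max k0 2, fun k hkk A κ hA g7 hκ D R K C hD hR hK hC hCK => ?_⟩
  obtain ⟨g1, g1', g2, g3, g4, g5, g6, g8, g9⟩ := h0 k ((le_max_left _ _).trans hkk)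
  have hk2 : 2 ≤ k := (le_max_right _ _).trans hkk
  have hk0 : (0 : ℝ) < k := by
    have : 0 < k := by omega
    exact_mod_cast this
  have hk1 : (1 : ℝ) ≤ k := by
    have : 1 ≤ k := by omega
    exact_mod_cast this
  obtain ⟨ℓ, hℓ⟩ : ∃ ℓ, ℓ = Real.log k := ⟨_, rfl⟩
  rw [← hℓ] at hD hR hK g1 g1' g2 g3 g4 g5 g6 g8 g9
  have hℓ0 : 0 < ℓ := by linarith
  have hℓ1 : 1 ≤ ℓ := by linarith
  rw [Real.rpow_one] at g2 g4
  rw [one_mul] at g2
  have hDℓ : (D : ℝ) ≤ ℓ := by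
    have h1 : (D : ℝ) * 1 ≤ D * Real.log ℓ := mul_le_mul_of_nonneg_left g1' (Nat.cast_nonneg D)
    have h2 : min 1 (η / (2 * b)) * ℓ ≤ 1 * ℓ := mul_le_mul_of_nonneg_right (min_le_left _ _) hℓ0.le
    linarith
  obtain ⟨W, hW⟩ : ∃ W, W = D * R := ⟨_, rfl⟩
  obtain ⟨L, hL⟩ : ∃ L, L = ⌈ℓ ^ (2 * a + 4)⌉₊ := ⟨_, rfl⟩
  obtain ⟨Z, hZ⟩ : ∃ Z, Z = ⌈ℓ ^ (4 * a + 12)⌉₊ := ⟨_, rfl⟩
  rw [← hL] at g8
  rw [← hZ] at g9
  have hWr : (W : ℝ) ≤ ℓ ^ (a + 1) := by
    rw [hW, Real.rpow_add hℓ0, Real.rpow_one]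
    push_cast
    rw [mul_comm (D : ℝ) R]
    exact mul_le_mul hR hDℓ (Nat.cast_nonneg D) (by positivity)
  have pmono : ∀ r s : ℝ, r ≤ s → ℓ ^ r ≤ ℓ ^ s := fun r s hrs =>
    Real.rpow_le_rpow_of_exponent_le hℓ1 hrs
  have hL1 : ℓ ^ (2 * a + 4) ≤ L := by
    rw [hL]
    exact Nat.le_ceil _
  have hL2 : (L : ℝ) ≤ ℓ ^ (2 * a + 4) + 1 := by
    rw [hL]
    exact (Nat.ceil_lt_add_one (by positivity)).le
  have hZ1 : ℓ ^ (4 * a + 12) ≤ Z := by
    rw [hZ]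
    exact Nat.le_ceil _
  have hZ2 : (Z : ℝ) ≤ ℓ ^ (4 * a + 12) + 1 := by
    rw [hZ]
    exact (Nat.ceil_lt_add_one (by positivity)).le
  have hpL : ℓ ^ (a + 2) ≤ Nat.primeCounting L := by
    refine le_trans ?_ g8
    rw [Real.sqrt_eq_rpow]
    calc ℓ ^ (a + 2) = (ℓ ^ (2 * a + 4)) ^ (1 / 2 : ℝ) := by
          rw [← Real.rpow_mul hℓ0.le]
          congr 1
          ring
      _ ≤ (L : ℝ) ^ (1 / 2 : ℝ) := Real.rpow_le_rpow (by positivity) hL1 (by norm_num)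
  have hpZ : ℓ ^ (2 * a + 6) ≤ Nat.primeCounting Z := by
    refine le_trans ?_ g9
    rw [Real.sqrt_eq_rpow]
    calc ℓ ^ (2 * a + 6) = (ℓ ^ (4 * a + 12)) ^ (1 / 2 : ℝ) := by
          rw [← Real.rpow_mul hℓ0.le]
          congr 1
          ring
      _ ≤ (Z : ℝ) ^ (1 / 2 : ℝ) := Real.rpow_le_rpow (by positivity) hZ1 (by norm_num)
  have h1p : ∀ r : ℝ, 0 ≤ r → 1 ≤ ℓ ^ r := fun r hr => Real.one_le_rpow hℓ1 hr
  have hWL : W < Nat.primeCounting L := by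
    have h1 : (W : ℝ) < Nat.primeCounting L := by
      have h2 : ℓ ^ (a + 2) = ℓ ^ (a + 1) * ℓ := by
        rw [← Real.rpow_add_one hℓ0.ne']
        congr 1
        ring
      have h3 := h1p (a + 1) (by linarith)
      nlinarith
    exact_mod_cast h1
  have hLZ : L ≤ Z := by
    rw [hL, hZ]
    exact Nat.ceil_mono (pmono _ _ (by linarith))
  have hpLZ : Nat.primeCounting L + D * (W + 1) ≤ Nat.primeCounting Z := by
    have h1 : (Nat.primeCounting L : ℝ) + D * (W + 1) ≤ Nat.primeCounting Z := by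
      have h2 : (Nat.primeCounting L : ℝ) ≤ L := by exact_mod_cast pi_le L
      have h3 : (D : ℝ) * (W + 1) ≤ ℓ * (ℓ ^ (a + 1) + 1) :=
        mul_le_mul hDℓ (by linarith) (by positivity) hℓ0.le
      have h4 : ℓ * ℓ ^ (a + 1) = ℓ ^ (a + 2) := by
        rw [mul_comm, ← Real.rpow_add_one hℓ0.ne']
        congr 1
        ring
      have h5 : ℓ ^ (a + 2) ≤ ℓ ^ (2 * a + 4) := pmono _ _ (by linarith)
      have h6 : ℓ ≤ ℓ ^ (2 * a + 4) := by
        calc ℓ = ℓ ^ (1 : ℝ) := (Real.rpow_one ℓ).symm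
          _ ≤ _ := pmono _ _ (by linarith)
      have h7 : ℓ ^ (2 * a + 6) = ℓ ^ (2 * a + 4) * ℓ ^ 2 := by
        rw [← Real.rpow_natCast, ← Real.rpow_add hℓ0]
        congr 1
        push_cast
        ring
      have h8 := h1p (2 * a + 4) (by linarith)
      have h9 : 4 * ℓ ^ (2 * a + 4) ≤ ℓ ^ (2 * a + 6) := by
        rw [h7, mul_comm]
        have h11 : (4 : ℝ) ≤ ℓ ^ 2 := by nlinarith
        exact mul_le_mul_of_nonneg_left h11 (by linarith)
      have h10 : ℓ * (ℓ ^ (a + 1) + 1) = ℓ ^ (a + 2) + ℓ := by rw [mul_add, h4, mul_one]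
      linarith
    exact_mod_cast h1
  obtain ⟨X, hX⟩ : ∃ X, X = Z ^ (D + 1) := ⟨_, rfl⟩
  have hZpos : 1 ≤ Z := by
    have h1 := h1p (4 * a + 12) (by linarith)
    have h2 : (1 : ℝ) ≤ Z := h1.trans hZ1
    exact_mod_cast h2
  have hX1 : 1 ≤ X := by
    rw [hX]
    exact Nat.one_le_pow _ _ hZpos
  have hXZ : Z ^ (D - 1) * L ≤ X := by
    rw [hX, pow_succ]
    exact Nat.mul_le_mul (Nat.pow_le_pow_right hZpos (by omega)) hLZ
  -- the size of `X`
  have hXr : (X : ℝ) ≤ (k : ℝ) ^ η := by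
    have h1 : (Z : ℝ) ≤ ℓ ^ b := by
      have h2 : ℓ ^ b = ℓ ^ (4 * a + 12) * ℓ := by
        rw [← Real.rpow_add_one hℓ0.ne', hb]
        congr 1
        ring
      have h3 := h1p (4 * a + 12) (by linarith)
      rw [h2]
      nlinarith
    have h2 : (X : ℝ) ≤ (ℓ ^ b) ^ (D + 1) := by
      rw [hX]
      push_cast
      exact pow_le_pow_left₀ (Nat.cast_nonneg Z) h1 _
    refine h2.trans ?_
    rw [← Real.log_le_log_iff (by positivity) (by positivity), Real.log_pow, Real.log_rpow hℓ0,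
      Real.log_rpow hk0, ← hℓ]
    push_cast
    have h3 : min 1 (η / (2 * b)) * ℓ ≤ η / (2 * b) * ℓ :=
      mul_le_mul_of_nonneg_right (min_le_right _ _) hℓ0.le
    have h4 : (D : ℝ) * Real.log ℓ ≤ η / (2 * b) * ℓ := hD.trans h3
    calc ((D : ℝ) + 1) * (b * Real.log ℓ) = b * (D * Real.log ℓ) + b * Real.log ℓ := by ring
      _ ≤ b * (η / (2 * b) * ℓ) + η / 2 * ℓ := add_le_add (mul_le_mul_of_nonneg_left h4 hb0.le) g6
      _ = η * ℓ := by
          field_simp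
          ring
  -- the exponent
  have hκℓ : (3 * (κ : ℝ) + 6) * ℓ ≤ (k : ℝ) ^ (1 - η - γ) := by
    obtain ⟨B, hB⟩ : ∃ B, B = (k : ℝ) ^ ((1 - γ) / 4) := ⟨_, rfl⟩
    rw [← hB] at hκ g4
    have hB1 : 1 ≤ B := by
      rw [hB]
      exact Real.one_le_rpow hk1 (by linarith)
    have e1 : B * B = (k : ℝ) ^ ((1 - γ) / 2) := by
      rw [hB, ← Real.rpow_add hk0]
      congr 1
      ring
    have e2 : (k : ℝ) ^ ((1 - γ) / 2) ≤ (k : ℝ) ^ (1 - η - γ) :=
      Real.rpow_le_rpow_of_exponent_le hk1 (by linarith)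
    have e3 : 3 * (κ : ℝ) + 6 ≤ 9 * B := by linarith
    calc (3 * (κ : ℝ) + 6) * ℓ ≤ (9 * B) * (1 / 9 * B) := mul_le_mul e3 g4 hℓ0.le (by positivity)
      _ = B * B := by ring
      _ ≤ _ := e1.le.trans e2
  -- the bracket
  obtain ⟨G, hG⟩ : ∃ G, G = (k : ℝ) ^ γ := ⟨_, rfl⟩
  rw [← hG] at g2 g3 g7
  have hG0 : 0 < G := by rw [hG]; positivity
  have hbr : ∀ x : ℕ, 1 ≤ x → x ≤ X →
      A * (2 ^ D * (2 : ℝ) ^ G * (x : ℝ) ^ (C - K)) ^ (κ + 1) ≤ (2 : ℝ) ^ ((3 * κ + 4) * G) := by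
    intro x hx1 hxX
    have hx0 : (1 : ℝ) ≤ x := by exact_mod_cast hx1
    have h1 : (2 : ℝ) ^ D ≤ 2 ^ G := by
      rw [← Real.rpow_natCast]
      exact Real.rpow_le_rpow_of_exponent_le (by norm_num) (hDℓ.trans g2)
    have h2 : (x : ℝ) ^ (C - K) ≤ 2 ^ G := by
      have h3 : (x : ℝ) ≤ (k : ℝ) ^ η := le_trans (by exact_mod_cast hxX) hXr
      have h4 : (1 : ℝ) ≤ (k : ℝ) ^ η := Real.one_le_rpow hk1 hη0.le
      calc (x : ℝ) ^ (C - K) ≤ ((k : ℝ) ^ η) ^ (C - K) := pow_le_pow_left₀ (by linarith) h3 _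
        _ ≤ ((k : ℝ) ^ η) ^ R := pow_le_pow_right₀ h4 hCK
        _ ≤ 2 ^ G := by
            rw [← Real.log_le_log_iff (by positivity) (by positivity), Real.log_pow, Real.log_rpow hk0,
              Real.log_rpow (by norm_num), ← hℓ]
            have h5 : ℓ ^ (a + 1) = ℓ ^ a * ℓ := Real.rpow_add_one hℓ0.ne' a
            have h6 : (R : ℝ) * (η * ℓ) ≤ η * ℓ ^ (a + 1) := by
              rw [h5]
              have : (R : ℝ) * ℓ ≤ ℓ ^ a * ℓ := mul_le_mul_of_nonneg_right hR hℓ0.le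
              nlinarith
            have h7 : η * ℓ ^ (a + 1) ≤ η * (Real.log 2 / (η + 1) * G) := mul_le_mul_of_nonneg_left g3 hη0.le
            have h8 : η * (Real.log 2 / (η + 1) * G) ≤ G * Real.log 2 := by
              have h9 : η * (Real.log 2 / (η + 1) * G) = η / (η + 1) * (G * Real.log 2) := by
                field_simp
              rw [h9]
              have h10 : η / (η + 1) ≤ 1 := by
                rw [div_le_one (by linarith)]
                linarith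
              have h11 : 0 ≤ G * Real.log 2 := by positivity
              nlinarith
            linarith
    have h3 : 2 ^ D * (2 : ℝ) ^ G * (x : ℝ) ^ (C - K) ≤ (2 : ℝ) ^ (3 * G) := by
      calc 2 ^ D * (2 : ℝ) ^ G * (x : ℝ) ^ (C - K) ≤ 2 ^ G * 2 ^ G * 2 ^ G := by gcongr
        _ = (2 : ℝ) ^ (3 * G) := by
            rw [← Real.rpow_add two_pos, ← Real.rpow_add two_pos]
            congr 1
            ring
    calc A * (2 ^ D * (2 : ℝ) ^ G * (x : ℝ) ^ (C - K)) ^ (κ + 1)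
        ≤ 2 ^ G * ((2 : ℝ) ^ (3 * G)) ^ (κ + 1) := by gcongr
      _ = (2 : ℝ) ^ ((3 * κ + 4) * G) := by
          rw [← Real.rpow_natCast, ← Real.rpow_mul (by norm_num), ← Real.rpow_add two_pos]
          congr 1
          push_cast
          ring
  refine ⟨W, L, Z, X, ?_, hWL, hLZ, hpLZ, hX1, hXZ, fun x hx1 hxX => ?_, ?_⟩
  · rw [hW]
    exact Nat.mul_le_mul_left D hCK
  · rw [← hG]
    refine (hbr x hx1 hxX).trans ?_
    rw [← Real.rpow_natCast]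
    refine Real.rpow_le_rpow_of_exponent_le (by norm_num) ?_
    have hx0 : (1 : ℝ) ≤ x := by exact_mod_cast hx1
    have hxp : (0 : ℝ) < x := by linarith
    have hxk : (x : ℝ) ≤ (k : ℝ) ^ η := le_trans (by exact_mod_cast hxX) hXr
    have h1 : (K : ℝ) / x < (K / x : ℕ) + 1 := by
      rw [← Nat.floor_div_eq_div (K := ℝ)]
      exact Nat.lt_floor_add_one _
    have h2 : (k : ℝ) / ℓ / (k : ℝ) ^ η ≤ (K : ℝ) / x := by
      refine div_le_div₀ (Nat.cast_nonneg K) hK hxp hxk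
    have h3 : (3 * κ + 6) * G ≤ (k : ℝ) / ℓ / (k : ℝ) ^ η := by
      rw [le_div_iff₀ (by positivity), le_div_iff₀ hℓ0]
      have h4 : (k : ℝ) = (k : ℝ) ^ (1 - η - γ) * G * (k : ℝ) ^ η := by
        rw [hG, ← Real.rpow_add hk0, ← Real.rpow_add hk0]
        have : 1 - η - γ + γ + η = 1 := by ring
        rw [this, Real.rpow_one]
      have h5 : (3 * (κ : ℝ) + 6) * ℓ ≤ (k : ℝ) ^ (1 - η - γ) := hκℓ
      have h6 : 0 < G * (k : ℝ) ^ η := by positivity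
      calc (3 * κ + 6) * G * (k : ℝ) ^ η * ℓ = ((3 * κ + 6) * ℓ) * (G * (k : ℝ) ^ η) := by ring
        _ ≤ (k : ℝ) ^ (1 - η - γ) * (G * (k : ℝ) ^ η) := mul_le_mul_of_nonneg_right h5 h6.le
        _ = k := by rw [← mul_assoc]; exact h4.symm
    have h7 : 1 ≤ G := by linarith
    nlinarith
  · rw [← hG]
    have hX0 : (0 : ℝ) < X := by exact_mod_cast hX1
    have h1 : (X : ℝ) ^ C ≤ (k : ℝ) ^ (2 * η * k) := by
      have h2 : (1 : ℝ) ≤ (k : ℝ) ^ η := Real.one_le_rpow hk1 hη0.le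
      calc (X : ℝ) ^ C ≤ ((k : ℝ) ^ η) ^ C := pow_le_pow_left₀ hX0.le hXr _
        _ ≤ ((k : ℝ) ^ η) ^ (2 * k) := pow_le_pow_right₀ h2 hC
        _ = (k : ℝ) ^ (2 * η * k) := by
            rw [← Real.rpow_natCast, ← Real.rpow_mul hk0.le]
            congr 1
            push_cast
            ring
    refine lt_of_le_of_lt (mul_le_mul (hbr X hX1 le_rfl) h1 (by positivity) (by positivity)) ?_
    rw [← Real.log_lt_log_iff (by positivity) (by positivity), Real.log_mul (by positivity) (by positivity),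
      Real.log_rpow two_pos, Real.log_rpow hk0, Real.log_rpow hk0, ← hℓ]
    have h2 : (3 * (κ : ℝ) + 4) * G * Real.log 2 ≤ k := by
      have h3 : (k : ℝ) ^ (1 - η - γ) * G ≤ k := by
        rw [hG, ← Real.rpow_add hk0]
        calc (k : ℝ) ^ (1 - η - γ + γ) ≤ (k : ℝ) ^ (1 : ℝ) :=
              Real.rpow_le_rpow_of_exponent_le hk1 (by linarith)
          _ = k := Real.rpow_one _
      have h4 : (3 * (κ : ℝ) + 4) * G ≤ (k : ℝ) ^ (1 - η - γ) * G := by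
        refine mul_le_mul_of_nonneg_right ?_ hG0.le
        have h5 : (3 * (κ : ℝ) + 6) * 1 ≤ (3 * (κ : ℝ) + 6) * ℓ := mul_le_mul_of_nonneg_left hℓ1 (by positivity)
        linarith
      have h5 : 0 ≤ (3 * (κ : ℝ) + 4) * G := by positivity
      calc (3 * (κ : ℝ) + 4) * G * Real.log 2 ≤ (3 * (κ : ℝ) + 4) * G * 1 :=
            mul_le_mul_of_nonneg_left hl21.le h5
        _ = (3 * (κ : ℝ) + 4) * G := mul_one _
        _ ≤ _ := h4.trans h3
    have h3 : (k : ℝ) < ε / 2 * k * ℓ := by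
      rw [div_lt_iff₀ hε] at g5
      have h5 := mul_lt_mul_of_pos_left g5 hk0
      linarith
    have h4 : 2 * η * k * ℓ ≤ ε / 2 * k * ℓ := by
      have h5 : 0 < (k : ℝ) * ℓ := by positivity
      have h6 : 2 * η ≤ ε / 2 := by linarith
      have h7 := mul_le_mul_of_nonneg_right h6 h5.le
      linarith
    linarith

end Pool.Agent.NH83.EM
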