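import Pool.Agent.NH83.EM.D
import Pool.Agent.NH83.EM.G2

/-!
# Products of powers of `ζ(2)` and of multiple zeta values near multiples of `k / b` (helper83)
-/

set_option autoImplicit false

namespace Pool.Agent.NH83.EM

open Finset Filter
open Pool.Agent.NH24.GU
open Pool.Agent.Y760.ZG (mz)
open Pool.Agent.R404.WZ (Wd ar wt)

lemma mz_two : mz [2] = Real.pi ^ 2 / 6 := by
  have h := hasSum_zeta_two.tsum_eq
  have hs := hasSum_zeta_two.summable
  rw [mz, ← h, hs.tsum_eq_zero_add]
  simp [Pool.Agent.Y760.ZG.hr_nil]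

lemma mz_two_pow {E j : ℕ} (hj : j ≤ E) :
    (24 : ℝ) ^ E * mz [2] ^ j = (((-1) ^ j * 24 ^ (E - j) : ℤ) : ℝ) * (-(4 * Real.pi ^ 2)) ^ j := by
  have h1 : (24 : ℝ) ^ E = 24 ^ (E - j) * 24 ^ j := by rw [← pow_add]; congr 1; omega
  rw [h1, mz_two]
  push_cast
  rw [mul_assoc, ← mul_pow, mul_comm ((-1 : ℝ) ^ j), mul_assoc, ← mul_pow]
  congr 2
  ring

/-- the words of the indices with arguments near multiples of `k / b` -/
lemma word_of {k b R N : ℕ} {B : ℝ} (hb : 1 ≤ b) (hR : B < R + 1) (hN1 : b * N + R ≤ k)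
    (hN2 : k < b * (N + 1) + R) (hk : (b + 1) * R < k) (hJN : b + (b + 1) * R < N) {w : List ℕ} (hw : w.sum ≤ k)
    (h : ∀ x ∈ w, ∃ j : ℕ, 1 ≤ j ∧ |(b : ℝ) * x - j * k| ≤ B) :
    (∀ x ∈ w, 1 ≤ x / N ∧ x % N ≤ b + (b + 1) * R) ∧ (w.map fun x => x / N).sum ≤ b := by
  have hN0 : 0 < N := by omega
  have key : ∀ x ∈ w, 1 ≤ x / N ∧ x % N ≤ b + (b + 1) * R ∧ (x / N) * (k - R) ≤ b * x := by
    intro x hx
    obtain ⟨j, hj, h1⟩ := h x hx
    have hxk : x ≤ k := (List.single_le_sum (by simp) x hx).trans hw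
    have h2 : (b : ℤ) * x - j * k ≤ R ∧ (j : ℤ) * k - b * x ≤ R := by
      rw [abs_le] at h1
      have e1 : (((b : ℤ) * x - j * k : ℤ) : ℝ) < ((R + 1 : ℤ) : ℝ) := by
        push_cast
        linarith [h1.2]
      have e2 : (((j : ℤ) * k - b * x : ℤ) : ℝ) < ((R + 1 : ℤ) : ℝ) := by
        push_cast
        linarith [h1.1]
      have e3 := Int.cast_lt.1 e1
      have e4 := Int.cast_lt.1 e2
      omega
    obtain ⟨h3, h4⟩ := h2
    have h5 : b * x ≤ j * k + R := by
      zify
      linarith
    have h6 : j * k ≤ b * x + R := by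
      zify
      linarith
    have hRk : R ≤ k := by omega
    -- `j (k - R) ≤ b x`
    have h7 : j * (k - R) ≤ b * x := by
      zify [hRk]
      have e1 : (R : ℤ) ≤ j * R := by
        have : (1 : ℤ) ≤ j := by exact_mod_cast hj
        have : (0 : ℤ) ≤ R := by positivity
        nlinarith
      have e2 : (j : ℤ) * k ≤ b * x + R := by exact_mod_cast h6
      linarith
    have hjb : j ≤ b := by
      by_contra hcon
      have e1 : (b + 1) * (k - R) ≤ j * (k - R) := Nat.mul_le_mul_right _ (by omega)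
      have e2 : b * x ≤ b * k := Nat.mul_le_mul_left _ hxk
      have e3 : (b + 1) * (k - R) ≤ b * k := e1.trans (h7.trans e2)
      zify [hRk] at e3 hk
      nlinarith
    have h8 : j * N ≤ x := by
      have e1 : b * (j * N) ≤ b * x := by
        refine le_trans ?_ h7
        calc b * (j * N) = j * (b * N) := by ring
          _ ≤ j * (k - R) := Nat.mul_le_mul_left _ (by omega)
      exact Nat.le_of_mul_le_mul_left e1 (by omega)
    have h9 : x ≤ j * N + (b + (b + 1) * R) := by
      have e1 : b * x ≤ b * (j * N + (j + (j + 1) * R)) := by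
        have e2 : j * k ≤ j * (b * (N + 1) + R) := Nat.mul_le_mul_left _ (by omega)
        have e3 : (j + 1) * R ≤ b * ((j + 1) * R) := Nat.le_mul_of_pos_left _ hb
        calc b * x ≤ j * k + R := h5
          _ ≤ j * (b * (N + 1) + R) + R := by omega
          _ = b * (j * N + j) + (j + 1) * R := by ring
          _ ≤ b * (j * N + j) + b * ((j + 1) * R) := by omega
          _ = _ := by ring
      have e2 := Nat.le_of_mul_le_mul_left e1 (show 0 < b by omega)
      have e3 : (j + 1) * R ≤ (b + 1) * R := Nat.mul_le_mul_right _ (by omega)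
      omega
    have h10 : x / N = j := by
      rw [Nat.div_eq_iff hN0]
      constructor
      · omega
      · have : (j + 1) * N = j * N + N := by ring
        omega
    have h11 : x % N ≤ b + (b + 1) * R := by
      have e1 := Nat.div_add_mod x N
      rw [h10] at e1
      have e2 : N * j = j * N := mul_comm _ _
      omega
    rw [h10]
    exact ⟨hj, h11, h7⟩
  refine ⟨fun x hx => ⟨(key x hx).1, (key x hx).2.1⟩, ?_⟩
  have hsum : (w.map fun x => x / N).sum * (k - R) ≤ b * w.sum := by
    clear hw h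
    induction w with
    | nil => simp
    | cons x l ih =>
      rw [List.map_cons, List.sum_cons, List.sum_cons, add_mul, mul_add]
      exact Nat.add_le_add (key x (by simp)).2.2 (ih fun y hy => key y (by simp [hy]))
  by_contra hcon
  have hRk : R ≤ k := by omega
  have e1 : (b + 1) * (k - R) ≤ (w.map fun x => x / N).sum * (k - R) := Nat.mul_le_mul_right _ (by omega)
  have e2 : b * w.sum ≤ b * k := Nat.mul_le_mul_left _ hw
  have e3 : (b + 1) * (k - R) ≤ b * k := e1.trans (hsum.trans e2)
  zify [hRk] at e3 hk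
  nlinarith

end Pool.Agent.NH83.EM
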