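import Pool.Agent.NH83.EM.D

/-!
# Numerical inequalities for `Pool.Agent.NH83.EM.prods` (helper83)
-/

set_option autoImplicit false

namespace Pool.Agent.NH83.EM

open Finset Filter

/-- numerical inequalities for `prods` -/
lemma prods_num {a γ ε : ℝ} (ha : 0 ≤ a) (hγ0 : 0 < γ) (hγ1 : γ < 1) (hε : 0 < ε) (N0 : ℕ) :
    ∃ k0 : ℕ, ∀ k : ℕ, k0 ≤ k → ∀ b : ℕ, 1 ≤ b → (b : ℝ) * Real.log (Real.log k) ≤ Real.log k →
      ∀ R : ℕ, (R : ℝ) ≤ (Real.log k) ^ a → ∀ E : ℕ, (E : ℝ) ≤ Real.log k →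
      ∃ N : ℕ, N0 ≤ N ∧ 3 ≤ N ∧ N ≤ k ∧ b * N + R ≤ k ∧ k < b * (N + 1) + R ∧ (b + 1) * R < k ∧
        b + (b + 1) * R < N ∧ Real.log k ≤ 2 * Real.log N ∧ 0 ≤ Real.log (Real.log N) ∧
        Real.log (Real.log N) ≤ Real.log (Real.log k) ∧
        ((b + (b + 1) * R : ℕ) : ℝ) ≤ (Real.log N) ^ (a + 2) ∧
        (24 : ℝ) ^ E * (2 : ℝ) ^ ((k : ℝ) ^ γ) ≤ (2 : ℝ) ^ ((N : ℝ) ^ ((1 + γ) / 2)) ∧
        (24 : ℝ) ^ E * (N : ℝ) ^ (ε / 2 * N) ≤ (k : ℝ) ^ (ε * k) := by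
  have hk : Tendsto (fun k : ℕ => (k : ℝ)) atTop atTop := tendsto_natCast_atTop_atTop
  have hl : Tendsto (fun k : ℕ => Real.log k) atTop atTop := Real.tendsto_log_atTop.comp hk
  have hll : Tendsto (fun k : ℕ => Real.log (Real.log k)) atTop atTop := Real.tendsto_log_atTop.comp hl
  have f1 := hl.eventually_ge_atTop (8 + 2 ^ (a + 4))
  have f1' := hll.eventually_ge_atTop 2
  have logpow : ∀ r s δ : ℝ, 0 < s → 0 < δ → ∀ᶠ k : ℕ in atTop, Real.log k ^ r ≤ δ * (k : ℝ) ^ s := by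
    intro r s δ hs hδ
    have h1 := (isLittleO_log_rpow_rpow_atTop r hs).bound hδ
    filter_upwards [hk.eventually h1, f1, eventually_ge_atTop 1] with k h2 h3 h4
    have hk0 : (0 : ℝ) < k := by exact_mod_cast h4
    have h5 : (0 : ℝ) ≤ 2 ^ (a + 4) := by positivity
    rw [Real.norm_of_nonneg (Real.rpow_nonneg (by linarith) _), Real.norm_of_nonneg (by positivity)] at h2
    exact h2
  -- `log k ^ (a + 2) ≤ k ^ (1/2) / 8`
  have f2 := logpow (a + 2) (1 / 2) (1 / 16) (by norm_num) (by norm_num)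
  have f3 := logpow 1 ((1 - γ) / 4) (1 / 4) (by linarith) (by norm_num)
  have f4 := logpow 1 γ (1 / 8) hγ0 (by norm_num)
  have f5 : ∀ᶠ k : ℕ in atTop, (N0 : ℝ) + 3 ≤ (k : ℝ) ^ ((1 : ℝ) / 2) :=
    ((tendsto_rpow_atTop (by norm_num)).comp hk).eventually_ge_atTop _
  have f6 : ∀ᶠ k : ℕ in atTop, (8 : ℝ) / ε ≤ k := hk.eventually_ge_atTop _
  obtain ⟨k1, h1⟩ := eventually_atTop.1 (f1.and (f1'.and (f2.and (f3.and (f4.and (f5.and f6))))))
  refine ⟨max k1 16, fun k hkk b hb hbk R hR E hE => ?_⟩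
  obtain ⟨g1, g1', g2, g3, g4, g5, g6⟩ := h1 k (by omega)
  have hk16 : 16 ≤ k := by omega
  have hkp : (0 : ℝ) < k := by
    have : 0 < k := by omega
    exact_mod_cast this
  have hk16r : (16 : ℝ) ≤ k := by exact_mod_cast hk16
  obtain ⟨ℓ, hℓ⟩ : ∃ ℓ, ℓ = Real.log k := ⟨_, rfl⟩
  rw [← hℓ] at g1 g1' g2 g3 g4 hbk hR hE
  have h2a : (16 : ℝ) ≤ 2 ^ (a + 4) := by
    have h3 : (2 : ℝ) ^ (4 : ℝ) ≤ 2 ^ (a + 4) := Real.rpow_le_rpow_of_exponent_le (by norm_num) (by linarith)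
    have h4 : (2 : ℝ) ^ (4 : ℝ) = 16 := by
      rw [show (4 : ℝ) = ((4 : ℕ) : ℝ) by norm_num, Real.rpow_natCast]
      norm_num
    linarith
  have hℓ8 : (8 : ℝ) ≤ ℓ := by linarith
  have hℓ0 : 0 < ℓ := by linarith
  obtain ⟨s, hs⟩ : ∃ s : ℝ, s = (k : ℝ) ^ ((1 : ℝ) / 2) := ⟨_, rfl⟩
  rw [← hs] at g2 g5
  have hs0 : 0 < s := by rw [hs]; positivity
  have hss : s * s = k := by
    rw [hs, ← Real.rpow_add hkp]
    norm_num
  have hb1 : (1 : ℝ) ≤ b := by exact_mod_cast hb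
  have hbℓ : (b : ℝ) ≤ ℓ / 2 := by
    have h5 : (b : ℝ) * 2 ≤ b * Real.log ℓ := mul_le_mul_of_nonneg_left g1' (Nat.cast_nonneg b)
    linarith
  have h1a : 1 ≤ ℓ ^ a := Real.one_le_rpow (by linarith) ha
  have ea1 : ℓ ^ (a + 1) = ℓ ^ a * ℓ := Real.rpow_add_one hℓ0.ne' a
  have ea2 : ℓ ^ (a + 2) = ℓ ^ a * ℓ * ℓ := by
    rw [show a + 2 = a + 1 + 1 by ring, Real.rpow_add_one hℓ0.ne', ea1]
  -- `J ≤ 2 ℓ ^ (a + 1)`
  have hJ : ((b + (b + 1) * R : ℕ) : ℝ) ≤ 2 * (ℓ ^ a * ℓ) := by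
    push_cast
    have e1 : ((b : ℝ) + 1) * R ≤ ((b : ℝ) + 1) * ℓ ^ a := mul_le_mul_of_nonneg_left hR (by linarith)
    have e2 : (b : ℝ) ≤ b * ℓ ^ a := le_mul_of_one_le_right (by linarith) h1a
    have e3 : (2 * (b : ℝ) + 1) * ℓ ^ a ≤ (2 * ℓ) * ℓ ^ a := mul_le_mul_of_nonneg_right (by linarith) (by linarith)
    linarith only [e1, e2, e3]
  have hsmall : 2 * (ℓ ^ a * ℓ) * ℓ ≤ s / 8 := by
    rw [ea2] at g2
    linarith
  have hJs : ((b + (b + 1) * R : ℕ) : ℝ) ≤ s / 64 := by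
    refine hJ.trans ?_
    have h5 : 0 ≤ 2 * (ℓ ^ a * ℓ) := by positivity
    have h6 := mul_le_mul_of_nonneg_left hℓ8 h5
    linarith only [h6, hsmall]
  have hRJ : R ≤ b + (b + 1) * R := by
    have : R ≤ (b + 1) * R := Nat.le_mul_of_pos_left _ (by omega)
    omega
  have hRs : (R : ℝ) ≤ s / 64 := le_trans (by exact_mod_cast hRJ) hJs
  have hs3 : (3 : ℝ) ≤ s := by
    have : (0 : ℝ) ≤ N0 := Nat.cast_nonneg _
    linarith
  have hsk : s ≤ k := by nlinarith only [hss, hs3]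
  have hRk : R ≤ k := by
    have : (R : ℝ) ≤ k := by linarith
    exact_mod_cast this
  obtain ⟨N, hN⟩ : ∃ N, N = (k - R) / b := ⟨_, rfl⟩
  have hN1 : b * N ≤ k - R := by
    rw [hN]
    exact Nat.mul_div_le _ _
  have hN2 : k - R < b * (N + 1) := by
    have := Nat.lt_mul_div_succ (k - R) (show 0 < b by omega)
    rw [← hN] at this
    exact this
  -- `s ≤ N`
  have hNr : (k : ℝ) < b * (N + 1) + R := by
    have : k < b * (N + 1) + R := by omega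
    exact_mod_cast this
  have hbs : (b : ℝ) ≤ s / 64 := by
    have e1 : b ≤ b + (b + 1) * R := Nat.le_add_right _ _
    exact le_trans (by exact_mod_cast e1) hJs
  have hsN : s ≤ N := by
    by_contra hcon
    push Not at hcon
    have e1 : (b : ℝ) * (N + 1) ≤ s / 64 * (s + 1) := by
      refine mul_le_mul hbs (by linarith) (by positivity) (by positivity)
    nlinarith only [hNr, e1, hRs, hss, hs3]
  have hNk : N ≤ k := by
    rw [hN]
    exact (Nat.div_le_self _ _).trans (Nat.sub_le _ _)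
  have hN0r : (0 : ℝ) < N := by linarith
  have hlogN : ℓ ≤ 2 * Real.log N := by
    have e1 : Real.log s ≤ Real.log N := Real.log_le_log hs0 hsN
    have e2 : Real.log s = 1 / 2 * ℓ := by rw [hs, Real.log_rpow hkp, hℓ]
    linarith
  have hlogN' : Real.log N ≤ ℓ := by
    rw [hℓ]
    exact Real.log_le_log hN0r (by exact_mod_cast hNk)
  have hlN4 : 4 ≤ Real.log N := by linarith
  refine ⟨N, ?_, ?_, hNk, by omega, by omega, ?_, ?_, by rw [← hℓ]; exact hlogN, Real.log_nonneg (by linarith), ?_, ?_, ?_, ?_⟩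
  · have : (N0 : ℝ) ≤ N := by linarith
    exact_mod_cast this
  · have : (3 : ℝ) ≤ N := by linarith
    exact_mod_cast this
  · have e1 : (((b + 1) * R : ℕ) : ℝ) ≤ ((b + (b + 1) * R : ℕ) : ℝ) := by
      exact_mod_cast Nat.le_add_left _ _
    have e2 : (((b + 1) * R : ℕ) : ℝ) < k := by linarith
    exact_mod_cast e2
  · have e2 : ((b + (b + 1) * R : ℕ) : ℝ) < N := by linarith
    exact_mod_cast e2
  · rw [← hℓ]
    exact Real.log_le_log (by linarith) hlogN'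
  · refine hJ.trans ?_
    have e1 : (ℓ / 2) ^ (a + 2) ≤ Real.log N ^ (a + 2) :=
      Real.rpow_le_rpow (by linarith) (by linarith) (by linarith)
    refine le_trans ?_ e1
    rw [Real.div_rpow hℓ0.le (by norm_num), le_div_iff₀ (by positivity), ea2]
    have e2 : (2 : ℝ) ^ (a + 4) = 2 ^ (a + 2) * 4 := by
      rw [show a + 4 = a + 2 + ((2 : ℕ) : ℝ) by push_cast; ring, Real.rpow_add (by norm_num), Real.rpow_natCast]
      norm_num
    have e3 : 0 < ℓ ^ a * ℓ := by positivity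
    have e4 : 0 < (2 : ℝ) ^ (a + 2) := by positivity
    have e5 : 2 * (2 : ℝ) ^ (a + 2) ≤ ℓ := by linarith
    have e6 := mul_le_mul_of_nonneg_left e5 e3.le
    linarith only [e6]
  · -- sizes
    have e1 : (24 : ℝ) ^ E ≤ 2 ^ (5 * ℓ) := by
      calc (24 : ℝ) ^ E ≤ (2 ^ 5) ^ E := pow_le_pow_left₀ (by norm_num) (by norm_num) _
        _ = (2 : ℝ) ^ (5 * (E : ℝ)) := by
          rw [← pow_mul, show (5 * (E : ℝ)) = ((5 * E : ℕ) : ℝ) by push_cast; ring, Real.rpow_natCast]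
        _ ≤ _ := Real.rpow_le_rpow_of_exponent_le (by norm_num) (by linarith)
    have e2 : (24 : ℝ) ^ E * (2 : ℝ) ^ ((k : ℝ) ^ γ) ≤ (2 : ℝ) ^ (5 * ℓ + (k : ℝ) ^ γ) := by
      rw [Real.rpow_add (by norm_num)]
      exact mul_le_mul_of_nonneg_right e1 (by positivity)
    refine e2.trans (Real.rpow_le_rpow_of_exponent_le (by norm_num) ?_)
    -- `5 ℓ + k ^ γ ≤ N ^ ((1 + γ) / 2)`
    rw [Real.rpow_one] at g3 g4
    have e3 : 0 < (k : ℝ) ^ γ := by positivity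
    have e4 : 5 * ℓ + (k : ℝ) ^ γ ≤ 2 * (k : ℝ) ^ γ := by linarith
    refine e4.trans ?_
    -- `k ≤ ℓ N`
    have e5 : (k : ℝ) ≤ ℓ * N := by
      have e6 : (b : ℝ) * (N + 1) ≤ ℓ / 2 * (N + 1) := mul_le_mul_of_nonneg_right hbℓ (by positivity)
      have e7 : (R : ℝ) ≤ N / 64 := by linarith
      have e8 : (3 : ℝ) ≤ N := by linarith
      nlinarith only [e6, e7, hNr, hℓ8, e8, mul_nonneg (sub_nonneg.2 hℓ8) (sub_nonneg.2 e8)]
    have e6 : (k : ℝ) ^ ((1 + γ) / 2) ≤ ℓ ^ ((1 + γ) / 2) * (N : ℝ) ^ ((1 + γ) / 2) := by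
      rw [← Real.mul_rpow hℓ0.le hN0r.le]
      exact Real.rpow_le_rpow hkp.le e5 (by linarith)
    have e7 : ℓ ^ ((1 + γ) / 2) ≤ ℓ := by
      calc ℓ ^ ((1 + γ) / 2) ≤ ℓ ^ (1 : ℝ) := Real.rpow_le_rpow_of_exponent_le (by linarith) (by linarith)
        _ = ℓ := Real.rpow_one ℓ
    have e8 : (k : ℝ) ^ ((1 + γ) / 2) = (k : ℝ) ^ ((1 - γ) / 4) * (k : ℝ) ^ ((1 - γ) / 4) * (k : ℝ) ^ γ := by
      rw [← Real.rpow_add hkp, ← Real.rpow_add hkp]
      congr 1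
      ring
    have e9 : 0 < (N : ℝ) ^ ((1 + γ) / 2) := by positivity
    have e10 : (k : ℝ) ^ ((1 + γ) / 2) ≤ ℓ * (N : ℝ) ^ ((1 + γ) / 2) :=
      e6.trans (mul_le_mul_of_nonneg_right e7 e9.le)
    obtain ⟨u, hu⟩ : ∃ u, u = (k : ℝ) ^ ((1 - γ) / 4) := ⟨_, rfl⟩
    rw [← hu] at g3 e8
    have hu0 : 0 < u := by rw [hu]; positivity
    -- `4 ℓ ≤ u`
    have e11 : 4 * ℓ ≤ u := by linarith
    have e12 : ℓ * (2 * (k : ℝ) ^ γ) ≤ ℓ * (N : ℝ) ^ ((1 + γ) / 2) := by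
      refine le_trans ?_ e10
      rw [e8]
      have e13 : 2 * ℓ ≤ u * u := by nlinarith only [e11, hℓ8]
      have e14 := mul_le_mul_of_nonneg_right e13 e3.le
      linarith only [e14]
    exact le_of_mul_le_mul_left e12 hℓ0
  · -- `24 ^ E N ^ (ε N / 2) ≤ k ^ (ε k)`
    have e1 : (24 : ℝ) ^ E ≤ (k : ℝ) ^ (ε / 2 * k) := by
      have e2 : (24 : ℝ) ≤ Real.exp 4 := by
        have e3 := Real.exp_one_gt_d9
        have e4 : Real.exp 4 = Real.exp 1 ^ 4 := by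
          rw [← Real.exp_nat_mul]
          norm_num
        rw [e4]
        have e5 : (2.7 : ℝ) ^ 4 ≤ Real.exp 1 ^ 4 := pow_le_pow_left₀ (by norm_num) (by linarith) _
        norm_num at e5
        linarith
      calc (24 : ℝ) ^ E ≤ Real.exp 4 ^ E := pow_le_pow_left₀ (by norm_num) e2 _
        _ = Real.exp (E * 4) := by rw [← Real.exp_nat_mul]
        _ ≤ Real.exp (Real.log k * (ε / 2 * k)) := by
          refine Real.exp_le_exp.2 ?_
          rw [← hℓ]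
          have e3 : 4 ≤ ε / 2 * k := by
            rw [div_le_iff₀ hε] at g6
            linarith only [g6]
          have e4 : (E : ℝ) * 4 ≤ ℓ * 4 := by linarith
          exact e4.trans (mul_le_mul_of_nonneg_left e3 hℓ0.le)
        _ = _ := by rw [Real.rpow_def_of_pos hkp]
    have e2 : (N : ℝ) ^ (ε / 2 * N) ≤ (k : ℝ) ^ (ε / 2 * k) := by
      have hNkr : (N : ℝ) ≤ k := by exact_mod_cast hNk
      calc (N : ℝ) ^ (ε / 2 * N) ≤ (k : ℝ) ^ (ε / 2 * N) := Real.rpow_le_rpow hN0r.le hNkr (by positivity)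
        _ ≤ _ := Real.rpow_le_rpow_of_exponent_le (by linarith) (mul_le_mul_of_nonneg_left hNkr (by positivity))
    calc (24 : ℝ) ^ E * (N : ℝ) ^ (ε / 2 * N) ≤ (k : ℝ) ^ (ε / 2 * k) * (k : ℝ) ^ (ε / 2 * k) :=
          mul_le_mul e1 e2 (by positivity) (by positivity)
      _ = _ := by
        rw [← Real.rpow_add hkp]
        congr 1
        ring

end Pool.Agent.NH83.EM
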