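import Pool.Agent.NH83.EM.H1
import Pool.Agent.NH83.EM.H2

/-!
# Products of powers of `ζ(2)` and of multiple zeta values near multiples of `k / b`: the theorem (helper83)
-/

set_option autoImplicit false

namespace Pool.Agent.NH83.EM

open Finset Filter
open Pool.Agent.NH24.GU
open Pool.Agent.Y760.ZG (mz)
open Pool.Agent.R404.WZ (Wd ar wt)

/-- the word of an index -/
def wd (N : ℕ) (v : List ℕ) : Wd := v.map fun x => (x / N, x % N)

lemma ar_wd (N : ℕ) (v : List ℕ) : ar N (wd N v) = v := by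
  rw [ar, wd, List.map_map]
  conv_rhs => rw [← List.map_id v]
  refine List.map_congr_left fun x _ => ?_
  simp only [Function.comp, id]
  exact Nat.div_add_mod' x N

lemma prods_sum {E N : ℕ} (S : Finset (ℕ × List ℕ)) (hS : ∀ p ∈ S, p.1 ≤ E) (q : ℕ × List ℕ → ℤ) :
    ∑ w ∈ S.image (fun p => wd N p.2), (∑ i : Fin (E + 1), (((if ((i : ℕ), ar N w) ∈ S then
      q ((i : ℕ), ar N w) * ((-1) ^ (i : ℕ) * 24 ^ (E - i)) else 0 : ℤ)) : ℝ) * Th E i) * mz (ar N w) =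
    (24 : ℝ) ^ E * ∑ p ∈ S, (q p : ℝ) * (mz [2] ^ p.1 * mz p.2) := by
  classical
  have e1 : ∀ w ∈ S.image (fun p => wd N p.2), (∑ i : Fin (E + 1), (((if ((i : ℕ), ar N w) ∈ S then
      q ((i : ℕ), ar N w) * ((-1) ^ (i : ℕ) * 24 ^ (E - i)) else 0 : ℤ)) : ℝ) * Th E i) * mz (ar N w) =
      ∑ i : Fin (E + 1), if ((i : ℕ), ar N w) ∈ S then
        (24 : ℝ) ^ E * ((q ((i : ℕ), ar N w) : ℝ) * (mz [2] ^ (i : ℕ) * mz (ar N w))) else 0 := by
    intro w _
    rw [Finset.sum_mul]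
    refine Finset.sum_congr rfl fun i _ => ?_
    split_ifs with h
    · have h1 := mz_two_pow (E := E) (j := i) (by have := i.2; omega)
      rw [Th]
      push_cast at h1 ⊢
      linear_combination (-(q ((i : ℕ), ar N w) : ℝ) * mz (ar N w)) * h1
    · simp
  rw [Finset.sum_congr rfl e1, ← Finset.sum_product', ← Finset.sum_filter, Finset.mul_sum]
  refine Finset.sum_nbij' (fun t => ((t.2 : ℕ), ar N t.1)) (fun p => (wd N p.2, Fin.ofNat (E + 1) p.1)) ?_ ?_ ?_ ?_ ?_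
  · intro t ht
    exact (Finset.mem_filter.1 ht).2
  · intro p hp
    rw [Finset.mem_filter, Finset.mem_product]
    refine ⟨⟨Finset.mem_image_of_mem _ hp, Finset.mem_univ _⟩, ?_⟩
    have h1 : ((Fin.ofNat (E + 1) p.1 : Fin (E + 1)) : ℕ) = p.1 := by
      rw [Fin.val_ofNat]
      exact Nat.mod_eq_of_lt (by have := hS p hp; omega)
    simp only [ar_wd, h1]
    exact hp
  · intro t ht
    rw [Finset.mem_filter, Finset.mem_product] at ht
    obtain ⟨⟨ht1, _⟩, _⟩ := ht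
    obtain ⟨p, hp, hpt⟩ := Finset.mem_image.1 ht1
    refine Prod.ext ?_ ?_
    · simp only
      rw [← hpt, ar_wd]
    · simp only
      refine Fin.ext ?_
      rw [Fin.val_ofNat]
      exact Nat.mod_eq_of_lt t.2.2
  · intro p hp
    have h1 : ((Fin.ofNat (E + 1) p.1 : Fin (E + 1)) : ℕ) = p.1 := by
      rw [Fin.val_ofNat]
      exact Nat.mod_eq_of_lt (by have := hS p hp; omega)
    simp only [ar_wd, h1]
  · intro t ht
    rfl

lemma prods_size {E N : ℕ} (S : Finset (ℕ × List ℕ)) (q : ℕ × List ℕ → ℤ) (i : Fin (E + 1)) :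
    ∑ w ∈ S.image (fun p => wd N p.2), |(((if ((i : ℕ), ar N w) ∈ S then
      q ((i : ℕ), ar N w) * ((-1) ^ (i : ℕ) * 24 ^ (E - i)) else 0 : ℤ)) : ℝ)| ≤
    (24 : ℝ) ^ E * ∑ p ∈ S, |(q p : ℝ)| := by
  classical
  have e1 : ∀ w ∈ S.image (fun p => wd N p.2), |(((if ((i : ℕ), ar N w) ∈ S then
      q ((i : ℕ), ar N w) * ((-1) ^ (i : ℕ) * 24 ^ (E - i)) else 0 : ℤ)) : ℝ)| ≤
      if ((i : ℕ), ar N w) ∈ S then (24 : ℝ) ^ E * |(q ((i : ℕ), ar N w) : ℝ)| else 0 := by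
    intro w _
    split_ifs with h
    · push_cast
      rw [abs_mul, abs_mul, abs_pow, abs_neg, abs_one, one_pow, one_mul,
        abs_of_pos (by positivity : (0 : ℝ) < 24 ^ (E - (i : ℕ))), mul_comm]
      exact mul_le_mul_of_nonneg_right (pow_le_pow_right₀ (by norm_num) (Nat.sub_le _ _)) (abs_nonneg _)
    · simp
  refine (Finset.sum_le_sum e1).trans ?_
  rw [← Finset.sum_filter, ← Finset.mul_sum]
  refine mul_le_mul_of_nonneg_left ?_ (by positivity)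
  have e2 : Set.InjOn (fun w : Wd => ((i : ℕ), ar N w))
      ((S.image (fun p => wd N p.2)).filter fun w => ((i : ℕ), ar N w) ∈ S : Finset Wd) := by
    intro w hw w' hw' h
    obtain ⟨p, _, hp⟩ := Finset.mem_image.1 (Finset.mem_filter.1 hw).1
    obtain ⟨p', _, hp'⟩ := Finset.mem_image.1 (Finset.mem_filter.1 hw').1
    have h1 := congrArg Prod.snd h
    simp only at h1
    rw [← hp, ← hp', ar_wd, ar_wd] at h1
    rw [← hp, ← hp', h1]
  rw [← Finset.sum_image (f := fun p : ℕ × List ℕ => |(q p : ℝ)|) e2]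
  refine Finset.sum_le_sum_of_subset_of_nonneg (fun p hp => ?_) fun _ _ _ => abs_nonneg _
  obtain ⟨w, hw, rfl⟩ := Finset.mem_image.1 hp
  exact (Finset.mem_filter.1 hw).2

/-- products of powers of `ζ(2)` and of values whose arguments are near multiples of `k / b` -/
theorem prods {a γ ε : ℝ} (ha : 0 ≤ a) (hγ0 : 0 < γ) (hγ1 : γ < 1) (hε : 0 < ε) :
    ∃ c : ℝ, 0 < c ∧ ∃ k0 : ℕ, ∀ k : ℕ, k0 ≤ k → ∀ b E : ℕ, 1 ≤ b →
      (b : ℝ) * Real.log (Real.log k) ≤ c * Real.log k → (E : ℝ) ≤ c * Real.log k →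
      ∀ S : Finset (ℕ × List ℕ), (∀ p ∈ S, p.1 ≤ E ∧ p.2.sum ≤ k ∧
        ∀ x ∈ p.2, ∃ j : ℕ, 1 ≤ j ∧ |(b : ℝ) * x - j * k| ≤ (Real.log k) ^ a) →
      ∀ q : ℕ × List ℕ → ℤ, (∃ p ∈ S, q p ≠ 0) → ∑ p ∈ S, |(q p : ℝ)| ≤ (2 : ℝ) ^ ((k : ℝ) ^ γ) →
      ((k : ℝ) ^ (ε * k))⁻¹ < |∑ p ∈ S, (q p : ℝ) * (mz [2] ^ p.1 * mz p.2)| := by
  classical
  obtain ⟨κ, c0, hc0, hmeas, cE, hcE, N1, hN1⟩ := cond (s := (1 - (1 + γ) / 2) / 4) (t := (1 + γ) / 2)
    (by linarith) (by linarith)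
  obtain ⟨c, hc, hc1, N2, hN2⟩ := wordsV (a := a + 2) (γ := (1 + γ) / 2) (ε := ε / 2) (by linarith)
    (by linarith) (by linarith) (by linarith)
  obtain ⟨k0, hk0⟩ := prods_num ha hγ0 hγ1 hε (max N1 N2)
  refine ⟨min (min (c / 2) (cE / 2)) 1, by positivity, max k0 1, fun k hk b E hb hbk hE S hS q hq hqs => ?_⟩
  have hk1 : (1 : ℝ) ≤ k := by
    have : 1 ≤ k := (le_max_right _ _).trans hk
    exact_mod_cast this
  have hlk : 0 ≤ Real.log k := Real.log_nonneg hk1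
  have m1 : min (min (c / 2) (cE / 2)) 1 * Real.log k ≤ 1 * Real.log k :=
    mul_le_mul_of_nonneg_right (min_le_right _ _) hlk
  have m2 : min (min (c / 2) (cE / 2)) 1 * Real.log k ≤ c / 2 * Real.log k :=
    mul_le_mul_of_nonneg_right ((min_le_left _ _).trans (min_le_left _ _)) hlk
  have m3 : min (min (c / 2) (cE / 2)) 1 * Real.log k ≤ cE / 2 * Real.log k :=
    mul_le_mul_of_nonneg_right ((min_le_left _ _).trans (min_le_right _ _)) hlk
  obtain ⟨R, hR⟩ : ∃ R, R = ⌊(Real.log k) ^ a⌋₊ := ⟨_, rfl⟩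
  have hR1 : (R : ℝ) ≤ (Real.log k) ^ a := by
    rw [hR]
    exact Nat.floor_le (by positivity)
  have hR2 : (Real.log k) ^ a < R + 1 := by
    rw [hR]
    exact Nat.lt_floor_add_one _
  obtain ⟨N, n1, n2, n3, n4, n5, n6, n7, n8, n8', n9, n10, n11, n12⟩ := hk0 k ((le_max_left _ _).trans hk) b hb
    (by linarith) R hR1 E (by linarith)
  have hNr : (3 : ℝ) ≤ N := by exact_mod_cast n2
  obtain ⟨hκ, hA⟩ := hN1 N ((le_max_left _ _).trans n1) E (by
    refine (hE.trans m3).trans ?_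
    nlinarith)
  have hwords : ∀ w ∈ S.image (fun p => wd N p.2),
      (∀ y ∈ w, 1 ≤ y.1 ∧ y.2 ≤ b + (b + 1) * R) ∧ wt w ≤ b := by
    intro w hw
    obtain ⟨p, hp, rfl⟩ := Finset.mem_image.1 hw
    obtain ⟨h1, h2, h3⟩ := hS p hp
    obtain ⟨h4, h5⟩ := word_of hb hR2 n4 n5 n6 n7 h2 h3
    refine ⟨fun y hy => ?_, ?_⟩
    · rw [wd, List.mem_map] at hy
      obtain ⟨x, hx, rfl⟩ := hy
      exact h4 x hx
    · rw [wt, wd, List.map_map]
      exact h5
  have main := hN2 N ((le_max_right _ _).trans n1) (E + 1) (Th E) (c0 E) (κ E) (hc0 E) (hmeas E) hA hκ b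
    (b + (b + 1) * R) (by
      have e1 : (b : ℝ) * Real.log (Real.log N) ≤ b * Real.log (Real.log k) :=
        mul_le_mul_of_nonneg_left n9 (Nat.cast_nonneg _)
      have e2 := hbk.trans m2
      nlinarith) n10 (S.image fun p => wd N p.2) hwords
    (fun w i => if ((i : ℕ), ar N w) ∈ S then q ((i : ℕ), ar N w) * ((-1) ^ (i : ℕ) * 24 ^ (E - i)) else 0) (by
      obtain ⟨p, hp, hqp⟩ := hq
      refine ⟨wd N p.2, Finset.mem_image_of_mem _ hp, fun h => ?_⟩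
      have h1 := congrFun h (⟨p.1, by have := (hS p hp).1; omega⟩ : Fin (E + 1))
      simp only [ar_wd, Pi.zero_apply] at h1
      rw [if_pos hp] at h1
      rcases mul_eq_zero.1 h1 with h2 | h2
      · exact hqp h2
      · exact absurd h2 (by positivity)) (fun i => by
      refine (prods_size S q i).trans ?_
      exact (mul_le_mul_of_nonneg_left hqs (by positivity)).trans n11)
  rw [prods_sum S (fun p hp => (hS p hp).1) q, abs_mul, abs_of_pos (by positivity : (0 : ℝ) < 24 ^ E)] at main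
  have h24 : (0 : ℝ) < 24 ^ E := by positivity
  have hNp : (0 : ℝ) < (N : ℝ) ^ (ε / 2 * N) := by positivity
  have hkp : (0 : ℝ) < (k : ℝ) ^ (ε * k) := by positivity
  have e1 : ((k : ℝ) ^ (ε * k))⁻¹ ≤ ((24 : ℝ) ^ E * (N : ℝ) ^ (ε / 2 * N))⁻¹ :=
    inv_anti₀ (by positivity) n12
  refine lt_of_le_of_lt e1 ?_
  rw [mul_inv]
  rw [← mul_lt_mul_iff_right₀ h24, ← mul_assoc, mul_inv_cancel₀ h24.ne', one_mul]
  exact main

end Pool.Agent.NH83.EM
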